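import Pool.Agent.Work.MP_dd0bbc_gt.HypMain
import Pool.Agent.Work.MP_dd0bbc_gt.Flat

set_option autoImplicit false
open scoped Manifold ContDiff

namespace Pool.Agent.Results.MP_dd0bbc_gt.LatticeCase

open Pool.Agent.Work.MP_dd0bbc_gt

/-- A closed tangentially flat manifold of dimension `2 m` which is aspherical with group a
uniform lattice in a product of even dimensional real hyperbolic spaces has Euler characteristic
zero. -/
theorem result (m : ℕ) (hm : 1 ≤ m) (M : Type) [TopologicalSpace M] [T2Space M] [CompactSpace M]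
    [ConnectedSpace M] [ChartedSpace (EuclideanSpace ℝ (Fin (2 * m))) M]
    [IsManifold (𝓡 (2 * m)) ∞ M] (hf : FlatTangent (EuclideanSpace ℝ (Fin (2 * m))) M)
    (h : LatticeType m M) :
    ∑ k ∈ Finset.range (2 * m + 1), (-1 : ℤ) ^ k * (betti M k : ℤ) = 0 :=
  main_lattice m hm M ((flatTangent_iff _ M).1 hf) h

end Pool.Agent.Results.MP_dd0bbc_gt.LatticeCase
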